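import Mathlib
import Pool.Agent.H.MP_714461_an.A

set_option autoImplicit false

namespace Pool.Agent.Results.MP_714461_an.NowhereGateaux

open Filter Topology

theorem result : ∃ (X : Type) (_ : NormedAddCommGroup X) (_ : InnerProductSpace ℝ X),
    CompleteSpace X ∧ UniformConvexSpace X ∧
    Function.Surjective (NormedSpace.inclusionInDoubleDual ℝ X) ∧
    ¬ TopologicalSpace.SeparableSpace X ∧
    ∃ φ : X ≃ X, LipschitzWith 2 φ ∧ LipschitzWith 2 φ.symm ∧
      ∀ x : X, ¬ ∃ T : X →L[ℝ] X, ∀ h : X,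
        Tendsto (fun t : ℝ => t⁻¹ • (φ (x + t • h) - φ x)) (𝓝[≠] 0) (𝓝 (T h)) := by
  open Pool.Agent.H.MP_714461_an in
  exact ⟨H, inferInstance, inferInstance, inferInstance, inferInstance, refl, not_sep, φ,
    co_lip g1 (by simp [g1]) g1_lip, co_lip g2 (by simp [g2]) g2_lip, not_gat⟩

end Pool.Agent.Results.MP_714461_an.NowhereGateaux
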